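import Mathlib
import Pool.Agent.D0H44.FR.Stm

/-! Project FR, package SM (sums over the moduli `l r`). -/

open Finset MeasureTheory

namespace Pool.Agent.D0H81.FR

open Pool.Agent.D0H44.FR

/-! ### totients (copied from `H442R2/EHI/Model.lean` and `H316R2/Bv.lean`) -/

theorem prod_lower (S : Finset ℕ) (hS : ∀ p ∈ S, 2 ≤ p) :
    1 / ((S.card : ℝ) + 1) ≤ ∏ p ∈ S, (1 - (p : ℝ)⁻¹) := by
  induction S using Finset.induction_on_max with
  | empty => simp
  | insert a S ha ih =>
    have hnot : a ∉ S := fun h => lt_irrefl _ (ha a h)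
    have hcard : S.card + 2 ≤ a := by
      have hsub : S ⊆ Ico 2 a := by
        intro p hp
        rw [mem_Ico]
        exact ⟨hS p (mem_insert_of_mem hp), ha p hp⟩
      have := card_le_card hsub
      rw [Nat.card_Ico] at this
      have := hS a (mem_insert_self a S)
      omega
    rw [prod_insert hnot, card_insert_of_notMem hnot]
    have h1 := ih (fun p hp => hS p (mem_insert_of_mem hp))
    have hc : ((S.card : ℝ) + 2) ≤ a := by exact_mod_cast hcard
    have hc0 : (0 : ℝ) ≤ S.card := by positivity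
    have ha0 : (0 : ℝ) < a := by linarith
    have h2 : 1 - 1 / ((S.card : ℝ) + 2) ≤ 1 - (a : ℝ)⁻¹ := by
      have : (a : ℝ)⁻¹ ≤ 1 / ((S.card : ℝ) + 2) := by
        rw [one_div]; gcongr
      linarith
    have h3 : 0 ≤ 1 - 1 / ((S.card : ℝ) + 2) := by
      rw [sub_nonneg, div_le_one (by linarith)]; linarith
    calc 1 / (((S.card + 1 : ℕ) : ℝ) + 1) = (1 - 1 / ((S.card : ℝ) + 2)) * (1 / ((S.card : ℝ) + 1)) := by
          push_cast
          field_simp
          ring
      _ ≤ (1 - (a : ℝ)⁻¹) * ∏ p ∈ S, (1 - (p : ℝ)⁻¹) :=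
          mul_le_mul h2 h1 (by positivity) (h3.trans h2)

theorem tot_lower (k : ℕ) (hk : 1 ≤ k) : (k : ℝ) ≤ 2 * (1 + Real.log k) * (Nat.totient k : ℝ) := by
  have h1 : (Nat.totient k : ℝ) = k * ∏ p ∈ k.primeFactors, (1 - (p : ℝ)⁻¹) := by
    have := Nat.totient_eq_mul_prod_factors k
    have h2 : (((Nat.totient k : ℕ) : ℚ) : ℝ) =
      (((k : ℚ) * ∏ p ∈ k.primeFactors, (1 - (p : ℚ)⁻¹) : ℚ) : ℝ) := by rw [this]
    push_cast at h2
    exact h2
  have h2 := prod_lower k.primeFactors (fun p hp => (Nat.prime_of_mem_primeFactors hp).two_le)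
  have h3 : 2 ^ k.primeFactors.card ≤ k := by
    calc 2 ^ k.primeFactors.card ≤ ∏ p ∈ k.primeFactors, p :=
          pow_card_le_prod _ _ _ (fun p hp => (Nat.prime_of_mem_primeFactors hp).two_le)
      _ ≤ k := Nat.le_of_dvd (by omega) (Nat.prod_primeFactors_dvd k)
  have hk0 : (0 : ℝ) < k := by exact_mod_cast hk
  have h4 : (k.primeFactors.card : ℝ) * Real.log 2 ≤ Real.log k := by
    have h5 : ((2 : ℝ) ^ k.primeFactors.card) ≤ k := by exact_mod_cast h3
    have h6 := Real.log_le_log (by positivity) h5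
    rwa [Real.log_pow] at h6
  have h7 := Real.log_two_gt_d9
  have hlog : 0 ≤ Real.log k := Real.log_natCast_nonneg k
  have hcard0 : (0 : ℝ) ≤ k.primeFactors.card := by positivity
  have h8 : (k.primeFactors.card : ℝ) + 1 ≤ 2 * (1 + Real.log k) := by nlinarith
  rw [h1]
  have h9 : 1 ≤ 2 * (1 + Real.log k) * ∏ p ∈ k.primeFactors, (1 - (p : ℝ)⁻¹) := by
    calc (1 : ℝ) = ((k.primeFactors.card : ℝ) + 1) * (1 / ((k.primeFactors.card : ℝ) + 1)) := by
          field_simp
      _ ≤ 2 * (1 + Real.log k) * ∏ p ∈ k.primeFactors, (1 - (p : ℝ)⁻¹) :=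
          mul_le_mul h8 h2 (by positivity) (by positivity)
  nlinarith

theorem inv_tot (k : ℕ) (hk : 1 ≤ k) : 1 / (Nat.totient k : ℝ) ≤ 2 * (1 + Real.log k) / k := by
  have h1 : (0 : ℝ) < Nat.totient k := by exact_mod_cast Nat.totient_pos.2 hk
  have h2 : (0 : ℝ) < k := by exact_mod_cast hk
  rw [div_le_div_iff₀ h1 h2, one_mul]
  exact tot_lower k hk

theorem inv_tot_le (n : ℕ) (hn : 1 ≤ n) : 1 / (Nat.totient n : ℝ) ≤ (n.divisors.card : ℝ) / n := by
  have h1 : n ≤ n.divisors.card * Nat.totient n := by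
    calc n = ∑ d ∈ n.divisors, Nat.totient d := (Nat.sum_totient n).symm
      _ ≤ ∑ _d ∈ n.divisors, Nat.totient n := by
          apply sum_le_sum
          intro d hd
          exact Nat.le_of_dvd (Nat.totient_pos.mpr hn)
            (Nat.totient_dvd_of_dvd (Nat.dvd_of_mem_divisors hd))
      _ = _ := by rw [sum_const, smul_eq_mul]
  have h2 : (0:ℝ) < Nat.totient n := by exact_mod_cast Nat.totient_pos.mpr hn
  have h3 : (0:ℝ) < n := by exact_mod_cast hn
  rw [div_le_div_iff₀ h2 h3, one_mul]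
  exact_mod_cast h1

theorem sum_inv_tot (D : ℕ) : ∑ e ∈ Icc 1 D, 1 / (Nat.totient e : ℝ) ≤ (1 + Real.log D) ^ 2 := by
  have h := Pool.Agent.H398R2.BV.sum_card_pow_div 1 D
  simp only [pow_one] at h
  refine le_trans (sum_le_sum fun e he => ?_) h
  rw [mem_Icc] at he
  exact inv_tot_le e he.1

lemma inner (L : ℕ) (Y : ℕ → ℝ) (hY : ∀ d, 0 ≤ Y d) :
    ∑ l ∈ Icc 1 L, 1 / (Nat.totient l : ℝ) * ∑ d ∈ l.divisors, Y d ≤
      (1 + Real.log L) ^ 2 * ∑ d ∈ Icc 1 L, Y d / (Nat.totient d : ℝ) := by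
  have e1 : ∑ l ∈ Icc 1 L, 1 / (Nat.totient l : ℝ) * ∑ d ∈ l.divisors, Y d =
      ∑ d ∈ Icc 1 L, Y d * ∑ l ∈ (Icc 1 L).filter (fun l => d ∣ l), 1 / (Nat.totient l : ℝ) := by
    have e2 : ∀ l ∈ Icc 1 L, 1 / (Nat.totient l : ℝ) * ∑ d ∈ l.divisors, Y d =
        ∑ d ∈ Icc 1 L, (if d ∣ l then Y d * (1 / (Nat.totient l : ℝ)) else 0) := by
      intro l hl
      rw [mem_Icc] at hl
      rw [mul_sum, ← sum_filter]
      have e3 : l.divisors = (Icc 1 L).filter (fun d => d ∣ l) := by
        ext d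
        rw [Nat.mem_divisors, mem_filter, mem_Icc]
        constructor
        · rintro ⟨h1, h2⟩
          exact ⟨⟨Nat.pos_of_dvd_of_pos h1 (by omega), (Nat.le_of_dvd (by omega) h1).trans hl.2⟩,
            h1⟩
        · rintro ⟨h1, h2⟩
          exact ⟨h2, by omega⟩
      rw [e3]
      apply sum_congr rfl
      intro d _
      ring
    rw [sum_congr rfl e2, sum_comm]
    apply sum_congr rfl
    intro d _
    rw [mul_sum, sum_filter]
  rw [e1, mul_sum]
  apply sum_le_sum
  intro d hd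
  rw [mem_Icc] at hd
  have hφ : (0 : ℝ) < Nat.totient d := by exact_mod_cast Nat.totient_pos.2 (by omega)
  have h1 : ∑ l ∈ (Icc 1 L).filter (fun l => d ∣ l), 1 / (Nat.totient l : ℝ) ≤
      ∑ m ∈ Icc 1 L, 1 / (Nat.totient (d * m) : ℝ) := by
    have hinj : Set.InjOn (fun m => d * m) (Icc 1 L : Finset ℕ) := by
      intro m _ m' _ he
      exact Nat.eq_of_mul_eq_mul_left (by omega) he
    rw [← sum_image (g := fun m => d * m) (f := fun l => 1 / (Nat.totient l : ℝ)) hinj]
    apply sum_le_sum_of_subset_of_nonneg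
    · intro l hl
      rw [mem_filter, mem_Icc] at hl
      obtain ⟨⟨h1, h2⟩, m, rfl⟩ := hl
      rw [mem_image]
      refine ⟨m, ?_, rfl⟩
      rw [mem_Icc]
      constructor
      · by_contra hc
        have : m = 0 := by omega
        rw [this] at h1; omega
      · nlinarith
    · intros; positivity
  have h2 : ∑ m ∈ Icc 1 L, 1 / (Nat.totient (d * m) : ℝ) ≤
      1 / (Nat.totient d : ℝ) * ∑ m ∈ Icc 1 L, 1 / (Nat.totient m : ℝ) := by
    rw [mul_sum]
    apply sum_le_sum
    intro m hm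
    rw [mem_Icc] at hm
    have hm1 : (0 : ℝ) < Nat.totient m := by exact_mod_cast Nat.totient_pos.2 (by omega)
    have h := Nat.totient_super_multiplicative d m
    have h' : (Nat.totient d : ℝ) * Nat.totient m ≤ Nat.totient (d * m) := by exact_mod_cast h
    rw [one_div_mul_one_div]
    exact one_div_le_one_div_of_le (by positivity) h'
  have h3 := sum_inv_tot L
  calc Y d * ∑ l ∈ (Icc 1 L).filter (fun l => d ∣ l), 1 / (Nat.totient l : ℝ) ≤
      Y d * (1 / (Nat.totient d : ℝ) * (1 + Real.log L) ^ 2) := by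
        apply mul_le_mul_of_nonneg_left _ (hY d)
        exact h1.trans (h2.trans (mul_le_mul_of_nonneg_left h3 (by positivity)))
    _ = _ := by ring

/-- the divisors of `l r` which do not divide `l` -/
lemma div_eq (l r : ℕ) (hl : 1 ≤ l) (hr : r.Prime) (hlr : l < r) :
    (l * r).divisors.filter (fun f => ¬ f ∣ l) = l.divisors.image (fun d => d * r) := by
  have hr0 : 0 < r := hr.pos
  have hrl : ¬ r ∣ l := fun h => by
    have := Nat.le_of_dvd (by omega) h
    omega
  ext f
  rw [mem_filter, Nat.mem_divisors, mem_image]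
  constructor
  · rintro ⟨⟨h1, h2⟩, h3⟩
    have hrf : r ∣ f := by
      by_contra hc
      have hcop : Nat.Coprime f r := ((Nat.Prime.coprime_iff_not_dvd hr).2 hc).symm
      exact h3 (hcop.dvd_of_dvd_mul_right h1)
    obtain ⟨d, rfl⟩ := hrf
    refine ⟨d, ?_, mul_comm _ _⟩
    rw [Nat.mem_divisors]
    refine ⟨?_, by omega⟩
    rw [mul_comm r d] at h1
    exact Nat.dvd_of_mul_dvd_mul_right hr0 h1
  · rintro ⟨d, hd, rfl⟩
    rw [Nat.mem_divisors] at hd
    refine ⟨⟨Nat.mul_dvd_mul_right hd.1 r, by positivity⟩, ?_⟩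
    intro h
    exact hrl ((dvd_mul_left r d).trans h)

lemma sum_div_eq (l r : ℕ) (hl : 1 ≤ l) (hr : r.Prime) (hlr : l < r) (X : ℕ → ℝ) :
    1 / (Nat.totient (l * r) : ℝ) * ∑ f ∈ (l * r).divisors.filter (fun f => ¬ f ∣ l), X f =
      1 / ((r : ℝ) - 1) * (1 / (Nat.totient l : ℝ) * ∑ d ∈ l.divisors, X (d * r)) := by
  have hrl : ¬ r ∣ l := fun h => by
    have := Nat.le_of_dvd (by omega) h
    omega
  have hcop : Nat.Coprime l r := ((Nat.Prime.coprime_iff_not_dvd hr).2 hrl).symm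
  rw [div_eq l r hl hr hlr, sum_image, Nat.totient_mul hcop, Nat.totient_prime hr]
  · rw [Nat.cast_mul, Nat.cast_sub hr.one_le, Nat.cast_one]
    rw [← mul_assoc, one_div_mul_one_div, mul_comm ((r : ℝ) - 1)]
  · intro d _ d' _ he
    exact Nat.eq_of_mul_eq_mul_right hr.pos he

lemma abel (R N : ℕ) (X : ℕ → ℝ) (A B C : ℝ) (hR : 2 ≤ R) (hRN : R ≤ N) (hX : ∀ f, 0 ≤ X f)
    (hA : 0 ≤ A) (hB : 0 ≤ B) (hC : 0 ≤ C)
    (hS : ∀ t : ℕ, R ≤ t → t ≤ N → ∑ f ∈ Icc 2 t, X f ≤ A + B * t + C * (t : ℝ) ^ 2) :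
    ∑ f ∈ Ioc R N, X f / f ≤ 2 * (A / R) + B * (1 + Real.log N) + 2 * C * N := by
  have key : ∀ t : ℕ, R ≤ t → t ≤ N → ∑ f ∈ Ioc R t, X f / f ≤ (∑ f ∈ Icc 2 t, X f) / t +
      A * (1 / R - 1 / t) + B * (Real.log t - Real.log R) + C * ((t : ℝ) - R) := by
    intro t ht
    induction t, ht using Nat.le_induction with
    | base =>
      intro _
      rw [Ioc_self, sum_empty]
      have : 0 ≤ (∑ f ∈ Icc 2 R, X f) / R :=
        div_nonneg (sum_nonneg fun f _ => hX f) (Nat.cast_nonneg _)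
      simpa using this
    | succ t ht ih =>
      intro htN
      have ih' := ih (by omega)
      have hs := hS t ht (by omega)
      have ht0 : (0 : ℝ) < t := by
        have : 0 < t := by omega
        exact_mod_cast this
      rw [sum_Ioc_succ_top (by omega), sum_Icc_succ_top (by omega)]
      push_cast
      set S := ∑ f ∈ Icc 2 t, X f with hSd
      have h1 : S / t - S / (t + 1) = S * (1 / (t * (t + 1))) := by
        field_simp
        ring
      have h2 : S * (1 / ((t : ℝ) * (t + 1))) ≤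
          (A + B * t + C * (t : ℝ) ^ 2) * (1 / ((t : ℝ) * (t + 1))) :=
        mul_le_mul_of_nonneg_right hs (by positivity)
      have h3 : (A + B * t + C * (t : ℝ) ^ 2) * (1 / ((t : ℝ) * (t + 1))) =
          A * (1 / t - 1 / (t + 1)) + B * (1 / (t + 1)) + C * (t / (t + 1)) := by
        field_simp
        ring
      have h4 : 1 / ((t : ℝ) + 1) ≤ Real.log (t + 1) - Real.log t := by
        rw [← Real.log_div (by positivity) (by positivity)]
        have := Real.one_sub_inv_le_log_of_pos (x := ((t : ℝ) + 1) / t) (by positivity)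
        refine le_trans (le_of_eq ?_) this
        field_simp
        ring
      have h5 : (t : ℝ) / (t + 1) ≤ 1 := by
        rw [div_le_one (by positivity)]; linarith
      have h6 : B * (1 / ((t : ℝ) + 1)) ≤ B * (Real.log (t + 1) - Real.log t) :=
        mul_le_mul_of_nonneg_left h4 hB
      have h7 : C * ((t : ℝ) / (t + 1)) ≤ C * 1 := mul_le_mul_of_nonneg_left h5 hC
      have h8 : (S + X (t + 1)) / ((t : ℝ) + 1) = X (t + 1) / (t + 1) + S / (t + 1) := by ring
      rw [h8]
      linarith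
  have h := key N hRN le_rfl
  have hs := hS N hRN le_rfl
  have hR0 : (0 : ℝ) < R := by
    have : 0 < R := by omega
    exact_mod_cast this
  have hN0 : (0 : ℝ) < N := by
    have : 0 < N := by omega
    exact_mod_cast this
  have h1 : (∑ f ∈ Icc 2 N, X f) / N ≤ A / N + B + C * N := by
    rw [div_le_iff₀ hN0]
    refine hs.trans (le_of_eq ?_)
    field_simp
  have h2 : 0 ≤ Real.log R := Real.log_natCast_nonneg R
  have h3 : B * (Real.log N - Real.log R) ≤ B * Real.log N :=
    mul_le_mul_of_nonneg_left (by linarith) hB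
  have h4 : C * ((N : ℝ) - R) ≤ C * N := mul_le_mul_of_nonneg_left (by linarith) hC
  have h5 : A * (1 / R - 1 / N) = A / R - A / N := by ring
  have h6 : 0 ≤ A / R := by positivity
  rw [h5] at h
  linarith

theorem t_SM : S_SM := by
  intro L R G X A B C hL hLR hG hX hA hB hC hS
  set N := 2 * L * R with hN
  have hR2 : 2 ≤ R := by omega
  have hRN : R ≤ N := by rw [hN]; nlinarith
  have hL0 : (0 : ℝ) < L := by exact_mod_cast hL
  have hR0 : (0 : ℝ) < R := by
    have : 0 < R := by omega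
    exact_mod_cast this
  have hLN : L ≤ N := by rw [hN]; nlinarith
  set Z := 1 + Real.log (N : ℝ) with hZ
  have hlogN : 0 ≤ Real.log (N : ℝ) := Real.log_natCast_nonneg N
  have hZ1 : 1 ≤ Z := by rw [hZ]; linarith
  have hLZ : 1 + Real.log L ≤ Z := by
    rw [hZ]
    have := Real.log_le_log hL0 (by exact_mod_cast hLN : (L : ℝ) ≤ N)
    linarith
  have hLZ0 : 0 ≤ 1 + Real.log L := by
    have := Real.log_natCast_nonneg L
    linarith
  -- step 1
  have s1 : ∑ l ∈ Icc 1 L, ∑ r ∈ G, 1 / (Nat.totient (l * r) : ℝ) *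
      ∑ f ∈ (l * r).divisors.filter (fun f => ¬ f ∣ l), X f =
      ∑ r ∈ G, 1 / ((r : ℝ) - 1) * ∑ l ∈ Icc 1 L,
        1 / (Nat.totient l : ℝ) * ∑ d ∈ l.divisors, X (d * r) := by
    rw [sum_comm]
    apply sum_congr rfl
    intro r hr
    rw [mul_sum]
    apply sum_congr rfl
    intro l hl
    rw [mem_Icc] at hl
    have hGr := hG r hr
    exact sum_div_eq l r hl.1 hGr.1 (by omega) X
  have s2 : ∀ r ∈ G, 1 / ((r : ℝ) - 1) * ∑ l ∈ Icc 1 L,
        1 / (Nat.totient l : ℝ) * ∑ d ∈ l.divisors, X (d * r) ≤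
      ∑ d ∈ Icc 1 L, (2 * Z ^ 3) * (X (d * r) / ((d * r : ℕ) : ℝ)) := by
    intro r hr
    have hGr := hG r hr
    have hr1 : (0 : ℝ) < (r : ℝ) - 1 := by
      have : (1 : ℝ) < r := by exact_mod_cast hGr.1.one_lt
      linarith
    have h1 := inner L (fun d => X (d * r)) (fun d => hX _)
    calc 1 / ((r : ℝ) - 1) * ∑ l ∈ Icc 1 L,
        1 / (Nat.totient l : ℝ) * ∑ d ∈ l.divisors, X (d * r) ≤
        1 / ((r : ℝ) - 1) * ((1 + Real.log L) ^ 2 * ∑ d ∈ Icc 1 L,
          X (d * r) / (Nat.totient d : ℝ)) := mul_le_mul_of_nonneg_left h1 (by positivity)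
      _ ≤ 1 / ((r : ℝ) - 1) * (Z ^ 2 * ∑ d ∈ Icc 1 L, X (d * r) / (Nat.totient d : ℝ)) := by
          apply mul_le_mul_of_nonneg_left _ (by positivity)
          apply mul_le_mul_of_nonneg_right (pow_le_pow_left₀ hLZ0 hLZ 2)
          exact sum_nonneg fun d _ => div_nonneg (hX _) (Nat.cast_nonneg _)
      _ = ∑ d ∈ Icc 1 L, Z ^ 2 * (X (d * r) * (1 / (Nat.totient (d * r) : ℝ))) := by
          rw [mul_sum, mul_sum]
          apply sum_congr rfl
          intro d hd
          rw [mem_Icc] at hd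
          have hrl : ¬ r ∣ d := fun h => by
            have := Nat.le_of_dvd (by omega) h
            omega
          have hcop : Nat.Coprime d r := ((Nat.Prime.coprime_iff_not_dvd hGr.1).2 hrl).symm
          rw [Nat.totient_mul hcop, Nat.totient_prime hGr.1, Nat.cast_mul,
            Nat.cast_sub hGr.1.one_le, Nat.cast_one]
          have hφ : (0 : ℝ) < Nat.totient d := by exact_mod_cast Nat.totient_pos.2 (by omega)
          field_simp
      _ ≤ _ := by
          apply sum_le_sum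
          intro d hd
          rw [mem_Icc] at hd
          have hdr : 1 ≤ d * r := Nat.mul_pos (by omega) hGr.1.pos
          have h2 := inv_tot (d * r) hdr
          have hdrN : d * r ≤ N := by
            rw [hN]
            have := Nat.mul_le_mul hd.2 hGr.2.2
            nlinarith
          have hdr0 : (0 : ℝ) < ((d * r : ℕ) : ℝ) := by exact_mod_cast hdr
          have h3 : Real.log ((d * r : ℕ) : ℝ) ≤ Real.log (N : ℝ) :=
            Real.log_le_log hdr0 (by exact_mod_cast hdrN)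
          have h4 : 1 / (Nat.totient (d * r) : ℝ) ≤ 2 * Z / ((d * r : ℕ) : ℝ) := by
            refine h2.trans ?_
            apply div_le_div_of_nonneg_right _ hdr0.le
            rw [hZ]
            linarith
          calc Z ^ 2 * (X (d * r) * (1 / (Nat.totient (d * r) : ℝ))) ≤
              Z ^ 2 * (X (d * r) * (2 * Z / ((d * r : ℕ) : ℝ))) := by
                apply mul_le_mul_of_nonneg_left _ (by positivity)
                exact mul_le_mul_of_nonneg_left h4 (hX _)
            _ = _ := by ring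
  have s3 : ∑ r ∈ G, ∑ d ∈ Icc 1 L, (2 * Z ^ 3) * (X (d * r) / ((d * r : ℕ) : ℝ)) ≤
      (2 * Z ^ 3) * ∑ f ∈ Ioc R N, X f / f := by
    have e1 : ∑ r ∈ G, ∑ d ∈ Icc 1 L, (2 * Z ^ 3) * (X (d * r) / ((d * r : ℕ) : ℝ)) =
        (2 * Z ^ 3) * ∑ p ∈ G ×ˢ Icc 1 L, X (p.2 * p.1) / ((p.2 * p.1 : ℕ) : ℝ) := by
      rw [sum_product, mul_sum]
      apply sum_congr rfl
      intro r _
      rw [mul_sum]
    rw [e1]
    apply mul_le_mul_of_nonneg_left _ (by positivity)
    have hinj : Set.InjOn (fun p : ℕ × ℕ => p.2 * p.1) (G ×ˢ Icc 1 L : Finset (ℕ × ℕ)) := by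
      rintro ⟨r, d⟩ hp ⟨r', d'⟩ hp' he
      rw [mem_coe, mem_product, mem_Icc] at hp hp'
      simp only at hp hp' he
      have g1 := hG r hp.1
      have g2 := hG r' hp'.1
      have hrd : ¬ r ∣ d' := fun h => by
        have := Nat.le_of_dvd (by omega) h
        omega
      have hdvd : r ∣ d' * r' := by rw [← he]; exact dvd_mul_left r d
      have hrr : r = r' := by
        rcases (Nat.Prime.dvd_mul g1.1).1 hdvd with h | h
        · exact absurd h hrd
        · exact (Nat.prime_dvd_prime_iff_eq g1.1 g2.1).1 h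
      subst hrr
      have : d = d' := Nat.eq_of_mul_eq_mul_right g1.1.pos he
      rw [this]
    rw [← sum_image (g := fun p : ℕ × ℕ => p.2 * p.1) (f := fun f : ℕ => X f / (f : ℝ)) hinj]
    apply sum_le_sum_of_subset_of_nonneg
    · intro f hf
      rw [mem_image] at hf
      obtain ⟨⟨r, d⟩, hp, rfl⟩ := hf
      rw [mem_product, mem_Icc] at hp
      simp only at hp
      have g1 := hG r hp.1
      rw [mem_Ioc]
      simp only
      constructor
      · nlinarith [hp.2.1, g1.2.1]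
      · rw [hN]
        have := Nat.mul_le_mul hp.2.2 g1.2.2
        nlinarith
    · intro f _ _
      exact div_nonneg (hX f) (Nat.cast_nonneg _)
  have s4 := abel R N X A B C hR2 hRN hX hA hB hC hS
  rw [s1]
  refine ((sum_le_sum s2).trans s3).trans ?_
  have hNr : (N : ℝ) = 2 * (L * R) := by rw [hN]; push_cast; ring
  have hAR : 0 ≤ A / R := by positivity
  have hCLR : 0 ≤ C * ((L : ℝ) * R) := by positivity
  have hZ0 : 0 ≤ Z := by linarith
  have hZ3 : Z ^ 3 ≤ Z ^ 4 := pow_le_pow_right₀ hZ1 (by norm_num)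
  calc (2 * Z ^ 3) * ∑ f ∈ Ioc R N, X f / f ≤
      (2 * Z ^ 3) * (2 * (A / R) + B * Z + 2 * C * N) :=
        mul_le_mul_of_nonneg_left s4 (by positivity)
    _ = 4 * (Z ^ 3 * (A / R)) + 2 * (Z ^ 4 * B) + 8 * (Z ^ 3 * (C * (L * R))) := by
        rw [hNr]; ring
    _ ≤ 4 * (Z ^ 4 * (A / R)) + 2 * (Z ^ 4 * B) + 8 * (Z ^ 4 * (C * (L * R))) := by
        have t1 := mul_le_mul_of_nonneg_right hZ3 hAR
        have t2 := mul_le_mul_of_nonneg_right hZ3 hCLR
        linarith
    _ ≤ 100 * Z ^ 4 * (A / R + B + C * ((L : ℝ) * R)) := by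
        have t1 : 0 ≤ Z ^ 4 * (A / R) := by positivity
        have t2 : 0 ≤ Z ^ 4 * B := by positivity
        have t3 : 0 ≤ Z ^ 4 * (C * ((L : ℝ) * R)) := by positivity
        nlinarith

end Pool.Agent.D0H81.FR
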