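import Mathlib
import Pool.Agent.D0H44.FR.Stm

/-! Project FR, package CL (evaluation of `NN`). -/

open Finset MeasureTheory

namespace Pool.Agent.D0H81.FR

open Pool.Agent.H398R2.BV Pool.Agent.H410R2
open Pool.Agent.D0H44.EL
open Pool.Agent.D0H44.FR

lemma II_nonneg (Y : ℝ) (hY : 1 ≤ Y) (f : ℕ) (ψ : DirichletCharacter ℂ f) :
    0 ≤ Pool.Agent.D0H44.FR.II Y f ψ := by
  unfold Pool.Agent.D0H44.FR.II
  apply intervalIntegral.integral_nonneg hY
  intro y hy
  have : (0 : ℝ) < y := by linarith [hy.1]
  positivity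

/-- a condition modulo `r` -/
lemma class_mod (r κ l a : ℕ) (hr : r.Prime) (hl : 1 ≤ l) (hκ : 1 ≤ κ) (hlr : l < r)
    (hκr : κ < r) (ha : ¬ r ∣ a) (hne : κ ≠ l) :
    ∃ b : ℕ, ¬ r ∣ b ∧ ∀ n, a < n → (r ∣ κ * (n - a) + a * l ↔ n ≡ b [MOD r]) := by
  have : Fact r.Prime := ⟨hr⟩
  have hκ0 : (κ : ZMod r) ≠ 0 := by
    rw [Ne, ZMod.natCast_eq_zero_iff]
    intro h
    have := Nat.le_of_dvd (by omega) h
    omega
  have ha0 : (a : ZMod r) ≠ 0 := by
    rw [Ne, ZMod.natCast_eq_zero_iff]; exact ha
  have hkl : (κ : ZMod r) - l ≠ 0 := by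
    rw [sub_ne_zero]
    intro h
    have := (ZMod.natCast_eq_natCast_iff' κ l r).1 h
    rw [Nat.mod_eq_of_lt hκr, Nat.mod_eq_of_lt hlr] at this
    exact hne this
  refine ⟨((a : ZMod r) * (κ - l) / κ).val, ?_, ?_⟩
  · rw [← ZMod.natCast_eq_zero_iff, ZMod.natCast_zmod_val]
    exact div_ne_zero (mul_ne_zero ha0 hkl) hκ0
  · intro n hn
    rw [← ZMod.natCast_eq_natCast_iff, ZMod.natCast_zmod_val, ← ZMod.natCast_eq_zero_iff]
    push_cast [Nat.cast_sub hn.le]
    rw [eq_div_iff hκ0]
    constructor
    · intro h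
      linear_combination h
    · intro h
      linear_combination h

theorem t_CL : S_W → S_OM → S_PS → S_CH → S_CL := by
  intro hW hOM hPS hCH x Q a M l r κ hx hQ ha hax hM hl hκ hr hlr hκr hra hrM
  obtain ⟨om_d, om_d1, om_c, om01, om_out, om_b⟩ := hOM x Q a l hx hQ hl hax
  have hx0 : (0 : ℝ) < x := by linarith
  have hr2 := hr.two_le
  have hr1 : (0 : ℝ) < (r : ℝ) - 1 := by
    have : (2 : ℝ) ≤ r := by exact_mod_cast hr2
    linarith
  have hr1' : 1 / ((r : ℝ) - 1) ≤ 1 := by
    rw [div_le_one hr1]
    have : (2 : ℝ) ≤ r := by exact_mod_cast hr2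
    linarith
  have hM1 : 1 ≤ M := by omega
  have hlogM : 0 ≤ Real.log (M : ℝ) := Real.log_natCast_nonneg M
  have hΛ : ∀ n : ℕ, 0 ≤ ArithmeticFunction.vonMangoldt n := fun n =>
    ArithmeticFunction.vonMangoldt_nonneg
  have hterm : ∀ n : ℕ, 0 ≤ ArithmeticFunction.vonMangoldt n * om x Q a l n := fun n =>
    mul_nonneg (hΛ n) (om01 n).1
  have hterm' : ∀ n : ℕ, ArithmeticFunction.vonMangoldt n * om x Q a l n ≤
      ArithmeticFunction.vonMangoldt n := fun n => by
    have := mul_le_mul_of_nonneg_left (om01 n).2 (hΛ n)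
    rwa [mul_one] at this
  -- the support
  have hsupp : ∀ n : ℕ, om x Q a l n ≠ 0 → a < n := by
    intro n hn
    by_contra hc
    push Not at hc
    apply hn
    apply om_out
    left
    have : (n : ℝ) ≤ a := by exact_mod_cast hc
    linarith
  have hNN0 : 0 ≤ NN x Q a M l r κ := by
    unfold NN
    exact sum_nonneg fun n _ => hterm n
  have hMM0 : 0 ≤ MM x Q a M l := by
    unfold MM
    exact sum_nonneg fun n _ => hterm n
  -- a bound by the terms not coprime to m
  have hbound : ∀ (P : ℕ → Prop) [DecidablePred P] (m : ℕ), 1 ≤ m →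
      (∀ n, a < n → P n → ¬ n.Coprime m) →
      ∑ n ∈ (Icc 1 M).filter P, ArithmeticFunction.vonMangoldt n * om x Q a l n ≤
      m.primeFactors.card * Real.log M := by
    intro P _ m hm hP
    refine le_trans ?_ (sum_not_coprime M m hm)
    rw [sum_filter, sum_filter]
    apply sum_le_sum
    intro n _
    by_cases h0 : om x Q a l n = 0
    · rw [h0, mul_zero, ite_self]
      split_ifs
      · exact le_rfl
      · exact hΛ n
    by_cases hPn : P n
    · rw [if_pos hPn, if_pos (hP n (hsupp n h0) hPn)]
      exact hterm' n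
    · rw [if_neg hPn]
      split_ifs
      · exact le_rfl
      · exact hΛ n
  refine ⟨hNN0, ?_, ?_⟩
  · intro hne
    have hDl : Dl (2 * x) M l r = 1 / (Nat.totient (l * r) : ℝ) *
        (∑ f ∈ (l * r).divisors.filter (fun f => ¬ f ∣ l), ∑ ψ ∈ Prim f,
          5000 * Pool.Agent.D0H44.FR.II (2 * x) f ψ) +
        20 * Real.log M ^ 2 := rfl
    have hfirst : 0 ≤ 1 / (Nat.totient (l * r) : ℝ) *
        (∑ f ∈ (l * r).divisors.filter (fun f => ¬ f ∣ l), ∑ ψ ∈ Prim f,
          5000 * Pool.Agent.D0H44.FR.II (2 * x) f ψ) := by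
      apply mul_nonneg (by positivity)
      apply sum_nonneg
      intro f _
      apply sum_nonneg
      intro ψ _
      have := II_nonneg (2 * x) (by linarith) f ψ
      positivity
    have hlM : Real.log (l : ℝ) ≤ Real.log M := by
      apply Real.log_le_log (by exact_mod_cast hl)
      exact_mod_cast (by omega : l ≤ M)
    have hrM' : Real.log (r : ℝ) ≤ Real.log M := by
      apply Real.log_le_log (by exact_mod_cast hr.pos)
      exact_mod_cast hrM
    have hl0 : 0 ≤ Real.log (l : ℝ) := Real.log_natCast_nonneg l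
    have hr0 : 0 ≤ Real.log (r : ℝ) := Real.log_natCast_nonneg r
    by_cases hal : Nat.Coprime a l
    · obtain ⟨b, hb, hbn⟩ := class_mod r κ l a hr hl hκ hlr hκr hra hne
      have hrl : ¬ r ∣ l := fun h => by
        have := Nat.le_of_dvd (by omega) h
        omega
      have hcop : Nat.Coprime l r := ((Nat.Prime.coprime_iff_not_dvd hr).2 hrl).symm
      obtain ⟨c, hc1, hc2⟩ := Nat.chineseRemainder hcop a b
      have hcl : c.Coprime l := by
        rw [Nat.coprime_iff_gcd_eq_one, hc1.gcd_eq]
        exact hal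
      have hcr : c.Coprime r := by
        rw [Nat.coprime_iff_gcd_eq_one, hc2.gcd_eq]
        exact ((Nat.Prime.coprime_iff_not_dvd hr).2 hb).symm
      have hclr : c.Coprime (l * r) := Nat.Coprime.mul_right hcl hcr
      have h := hCH M l r c (fun y => om x Q a l y) hM1 hl hr hrl hclr om01
      have e1 : NN x Q a M l r κ = ∑ n ∈ (Icc 1 M).filter (fun n => n ≡ c [MOD (l * r)]),
          ArithmeticFunction.vonMangoldt n * om x Q a l n := by
        unfold NN
        rw [sum_filter, sum_filter]
        apply sum_congr rfl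
        intro n _
        by_cases h0 : om x Q a l n = 0
        · rw [h0, mul_zero, ite_self, ite_self]
        · have han := hsupp n h0
          have hiff : (n ≡ a [MOD l] ∧ r ∣ κ * (n - a) + a * l) ↔ n ≡ c [MOD (l * r)] := by
            rw [hbn n han, ← Nat.modEq_and_modEq_iff_modEq_mul hcop]
            constructor
            · rintro ⟨h1, h2⟩
              exact ⟨h1.trans hc1.symm, h2.trans hc2.symm⟩
            · rintro ⟨h1, h2⟩
              exact ⟨h1.trans hc1, h2.trans hc2⟩
          simp only [hiff]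
      have e2 : MM x Q a M l = ∑ n ∈ (Icc 1 M).filter (fun n => n ≡ c [MOD l]),
          ArithmeticFunction.vonMangoldt n * om x Q a l n := by
        unfold MM
        rw [sum_filter, sum_filter]
        apply sum_congr rfl
        intro n _
        have hiff : (n ≡ a [MOD l]) ↔ n ≡ c [MOD l] :=
          ⟨fun h => h.trans hc1.symm, fun h => h.trans hc1⟩
        simp only [hiff]
      rw [e1, e2]
      refine h.trans ?_
      rw [hDl]
      apply add_le_add
      · apply mul_le_mul_of_nonneg_left _ (by positivity)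
        apply sum_le_sum
        intro f _
        apply sum_le_sum
        intro ψ _
        exact hPS (fun y => om x Q a l y) (om1 x Q a l) (om2 x Q a l) 5000 (2 * x) M
          (by linarith) hM (by norm_num) om_d om_d1 om_c
          (fun y hy => om_out y (Or.inr hy)) (fun y hy _ => om_b y (by linarith)) f ψ
      · have h1 := omega_le_log (l * r) (Nat.mul_pos (by omega) hr.pos)
        have h2 : Real.log ((l * r : ℕ) : ℝ) = Real.log l + Real.log r := by
          rw [Nat.cast_mul, Real.log_mul]
          · have : (0 : ℝ) < l := by exact_mod_cast hl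
            exact this.ne'
          · have : (0 : ℝ) < r := by exact_mod_cast hr.pos
            exact this.ne'
        rw [h2] at h1
        have h3 : ((l * r).primeFactors.card : ℝ) ≤ 4 * Real.log M := by linarith
        have h4 := mul_le_mul_of_nonneg_right h3 hlogM
        nlinarith
    · have hgcd : ∀ n, n ≡ a [MOD l] → ¬ n.Coprime l := by
        intro n hn hc
        apply hal
        rw [Nat.coprime_iff_gcd_eq_one, ← hn.gcd_eq]
        exact hc
      have b1 : NN x Q a M l r κ ≤ l.primeFactors.card * Real.log M := by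
        unfold NN
        exact hbound _ l hl (fun n _ hn => hgcd n hn.1)
      have b2 : MM x Q a M l ≤ l.primeFactors.card * Real.log M := by
        unfold MM
        exact hbound _ l hl (fun n _ hn => hgcd n hn)
      have h1 := omega_le_log l hl
      have h3 : (l.primeFactors.card : ℝ) ≤ 2 * Real.log M := by linarith
      have h4 : (l.primeFactors.card : ℝ) * Real.log M ≤ 2 * Real.log M * Real.log M :=
        mul_le_mul_of_nonneg_right h3 hlogM
      have h5 : 1 / ((r : ℝ) - 1) * MM x Q a M l ≤ MM x Q a M l := by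
        have := mul_le_mul_of_nonneg_right hr1' hMM0
        rwa [one_mul] at this
      have h6 : 0 ≤ 1 / ((r : ℝ) - 1) * MM x Q a M l := by positivity
      rw [hDl, abs_le]
      have h7 : 0 ≤ Real.log M ^ 2 := by positivity
      constructor <;> nlinarith
  · intro he
    subst he
    have h := hbound (fun n => n ≡ a [MOD κ] ∧ r ∣ κ * (n - a) + a * κ) r (by omega) (by
      rintro n hn ⟨-, h2⟩ hc
      have e : κ * (n - a) + a * κ = κ * n := by
        rw [mul_comm a κ, ← mul_add]
        congr 1
        omega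
      rw [e] at h2
      rcases (Nat.Prime.dvd_mul hr).1 h2 with h | h
      · have := Nat.le_of_dvd (by omega) h
        omega
      · exact (Nat.Prime.coprime_iff_not_dvd hr).1 hc.symm h)
    rw [Nat.Prime.primeFactors hr, card_singleton, Nat.cast_one, one_mul] at h
    exact h

end Pool.Agent.D0H81.FR
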