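import Mathlib
import Pool.Agent.D0H44.FR.Stm

/-! Project FR, packages NC (moduli not coprime to the residue) and RG (regrouping). -/

open Finset MeasureTheory

namespace Pool.Agent.D0H81.FR

open Pool.Agent.D0H44.FR

/-- the divisors `q ∈ (Q, 2Q]` of `n - a` are at most `L` -/
lemma card_div_le (x : ℝ) (Q a L n : ℕ) (hQ : 1 ≤ Q) (han : a < n) (hn : (n : ℝ) < 2 * x)
    (hL : 2 * x ≤ (L : ℝ) * Q) :
    ((Ioc Q (2 * Q)).filter (fun q => n ≡ a [MOD q])).card ≤ L := by
  have hsub : ∀ q ∈ (Ioc Q (2 * Q)).filter (fun q => n ≡ a [MOD q]), (n - a) / q ∈ Icc 1 L := by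
    intro q hq
    rw [mem_filter, mem_Ioc] at hq
    obtain ⟨⟨h1, h2⟩, h3⟩ := hq
    have h4 : q ∣ n - a := (Nat.modEq_iff_dvd' han.le).1 h3.symm
    have hq0 : 0 < q := by omega
    rw [mem_Icc]
    constructor
    · exact Nat.div_pos (Nat.le_of_dvd (by omega) h4) hq0
    · have h5 : (n - a) / q * q = n - a := Nat.div_mul_cancel h4
      by_contra hc
      push Not at hc
      have h6 : L * Q < n := by
        have : (n - a) / q * q ≥ (L + 1) * (Q + 1) := Nat.mul_le_mul hc h1
        have h7 : (L + 1) * (Q + 1) > L * Q := by nlinarith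
        omega
      have h8 : ((L * Q : ℕ) : ℝ) < n := by exact_mod_cast h6
      push_cast at h8
      linarith
  have hinj : Set.InjOn (fun q => (n - a) / q)
      ((Ioc Q (2 * Q)).filter (fun q => n ≡ a [MOD q]) : Finset ℕ) := by
    intro q hq q' hq' he
    have hq1 := hq
    have hq1' := hq'
    rw [mem_coe, mem_filter, mem_Ioc] at hq hq'
    have h4 : q ∣ n - a := (Nat.modEq_iff_dvd' han.le).1 hq.2.symm
    have h4' : q' ∣ n - a := (Nat.modEq_iff_dvd' han.le).1 hq'.2.symm
    have h5 : (n - a) / q * q = n - a := Nat.div_mul_cancel h4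
    have h5' : (n - a) / q' * q' = n - a := Nat.div_mul_cancel h4'
    have hpos := (mem_Icc.1 (hsub q hq1)).1
    simp only at he
    rw [← he] at h5'
    have h6 : (n - a) / q * q = (n - a) / q * q' := by rw [h5, h5']
    exact Nat.eq_of_mul_eq_mul_left hpos h6
  calc ((Ioc Q (2 * Q)).filter (fun q => n ≡ a [MOD q])).card ≤ (Icc 1 L).card :=
        card_le_card_of_injOn _ hsub hinj
    _ = L := by simp

theorem t_NC : S_W → S_NC := by
  rintro ⟨-, -, -, hw01, -, -, hout, -⟩
  intro x Q a M L hx hQ ha hax hM hL hM1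
  have hx0 : (0 : ℝ) < x := by linarith
  unfold PP
  have h1 : ∑ q ∈ (Ioc Q (2 * Q)).filter (fun q => ¬ q.Coprime a),
      ∑ n ∈ (Icc 1 M).filter (fun n => n ≡ a [MOD q]),
        ArithmeticFunction.vonMangoldt n * w ((n : ℝ) / x) =
      ∑ n ∈ Icc 1 M, ∑ q ∈ (Ioc Q (2 * Q)).filter (fun q => ¬ q.Coprime a),
        (if n ≡ a [MOD q] then ArithmeticFunction.vonMangoldt n * w ((n : ℝ) / x) else 0) := by
    rw [sum_comm]
    apply sum_congr rfl
    intro q _
    rw [sum_filter]
  rw [h1]
  have h2 : ∀ n ∈ Icc 1 M, ∑ q ∈ (Ioc Q (2 * Q)).filter (fun q => ¬ q.Coprime a),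
      (if n ≡ a [MOD q] then ArithmeticFunction.vonMangoldt n * w ((n : ℝ) / x) else 0) ≤
      if ¬ n.Coprime a then (L : ℝ) * ArithmeticFunction.vonMangoldt n else 0 := by
    intro n hn
    have hΛ := ArithmeticFunction.vonMangoldt_nonneg (n := n)
    have hrhs : 0 ≤ if ¬ n.Coprime a then (L : ℝ) * ArithmeticFunction.vonMangoldt n else 0 := by
      split_ifs
      · exact le_rfl
      · positivity
    by_cases hs : (n : ℝ) / x ≤ 1 ∨ 2 ≤ (n : ℝ) / x
    · rw [(hout _ hs).1]
      simp only [mul_zero, ite_self, sum_const_zero]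
      exact hrhs
    push Not at hs
    have hn1 : x < n := by have := hs.1; rwa [one_lt_div hx0] at this
    have hn2 : (n : ℝ) < 2 * x := by have := hs.2; rwa [div_lt_iff₀ hx0] at this
    have han : a < n := by
      have : (a : ℝ) < n := by linarith
      exact_mod_cast this
    by_cases hc : n.Coprime a
    · have hz : ∑ q ∈ (Ioc Q (2 * Q)).filter (fun q => ¬ q.Coprime a),
          (if n ≡ a [MOD q] then ArithmeticFunction.vonMangoldt n * w ((n : ℝ) / x) else 0) = 0 := by
        apply sum_eq_zero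
        intro q hq
        rw [if_neg]
        intro hmod
        rw [mem_filter] at hq
        apply hq.2
        have h4 : q ∣ n - a := (Nat.modEq_iff_dvd' han.le).1 hmod.symm
        rw [Nat.coprime_iff_gcd_eq_one]
        have hg1 : Nat.gcd q a ∣ n := by
          have e : n = (n - a) + a := by omega
          rw [e]
          exact dvd_add ((Nat.gcd_dvd_left q a).trans h4) (Nat.gcd_dvd_right q a)
        have hg2 : Nat.gcd q a ∣ Nat.gcd n a := Nat.dvd_gcd hg1 (Nat.gcd_dvd_right q a)
        rw [hc] at hg2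
        exact Nat.dvd_one.1 hg2
      rw [hz]; exact hrhs
    · rw [if_pos hc]
      have hw := hw01 ((n : ℝ) / x)
      calc ∑ q ∈ (Ioc Q (2 * Q)).filter (fun q => ¬ q.Coprime a),
          (if n ≡ a [MOD q] then ArithmeticFunction.vonMangoldt n * w ((n : ℝ) / x) else 0)
          ≤ ∑ q ∈ Ioc Q (2 * Q),
          (if n ≡ a [MOD q] then ArithmeticFunction.vonMangoldt n * w ((n : ℝ) / x) else 0) := by
            apply sum_le_sum_of_subset_of_nonneg (filter_subset _ _)
            intro q _ _
            split_ifs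
            · exact mul_nonneg hΛ hw.1
            · exact le_rfl
        _ = ((Ioc Q (2 * Q)).filter (fun q => n ≡ a [MOD q])).card *
            (ArithmeticFunction.vonMangoldt n * w ((n : ℝ) / x)) := by
            rw [← sum_filter, sum_const, nsmul_eq_mul]
        _ ≤ (L : ℝ) * ArithmeticFunction.vonMangoldt n := by
            have hcard : (((Ioc Q (2 * Q)).filter (fun q => n ≡ a [MOD q])).card : ℝ) ≤ L := by
              exact_mod_cast card_div_le x Q a L n hQ han hn2 hL
            apply mul_le_mul hcard _ (mul_nonneg hΛ hw.1) (by positivity)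
            nlinarith [hw.2]
  calc _ ≤ ∑ n ∈ Icc 1 M, (if ¬ n.Coprime a then (L : ℝ) * ArithmeticFunction.vonMangoldt n
        else 0) := sum_le_sum h2
    _ = L * ∑ n ∈ (Icc 1 M).filter (fun n => ¬ n.Coprime a),
        ArithmeticFunction.vonMangoldt n := by rw [← sum_filter, mul_sum]
    _ ≤ _ := mul_le_mul_of_nonneg_left (Pool.Agent.H398R2.BV.sum_not_coprime M a ha) (by positivity)

end Pool.Agent.D0H81.FR
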