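import Mathlib
import Pool.Agent.D0H44.FR.Stm

/-! Project FR, package RG (regrouping). -/

open Finset MeasureTheory

namespace Pool.Agent.D0H81.FR

open Pool.Agent.D0H44.FR

theorem t_RG : S_W → S_RG := by
  rintro ⟨-, -, -, hw01, -, -, hout, -⟩
  intro x Q a M L r κ hx hQ ha hax hM hL hr hLr
  have hx0 : (0 : ℝ) < x := by linarith
  have hQ0 : (0 : ℝ) < Q := by exact_mod_cast hQ
  unfold PP NN om
  have hl : ∑ q ∈ Ioc Q (2 * Q), w ((q : ℝ) / Q) * (if r ∣ κ * q + a then (1 : ℝ) else 0) *
      ∑ n ∈ (Icc 1 M).filter (fun n => n ≡ a [MOD q]),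
        ArithmeticFunction.vonMangoldt n * w ((n : ℝ) / x) =
      ∑ n ∈ Icc 1 M, ArithmeticFunction.vonMangoldt n * w ((n : ℝ) / x) *
        ∑ q ∈ Ioc Q (2 * Q), (if n ≡ a [MOD q] then
          w ((q : ℝ) / Q) * (if r ∣ κ * q + a then (1 : ℝ) else 0) else 0) := by
    have e1 : ∀ q ∈ Ioc Q (2 * Q), w ((q : ℝ) / Q) * (if r ∣ κ * q + a then (1 : ℝ) else 0) *
        ∑ n ∈ (Icc 1 M).filter (fun n => n ≡ a [MOD q]),
          ArithmeticFunction.vonMangoldt n * w ((n : ℝ) / x) =
        ∑ n ∈ Icc 1 M, ArithmeticFunction.vonMangoldt n * w ((n : ℝ) / x) *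
          (if n ≡ a [MOD q] then
          w ((q : ℝ) / Q) * (if r ∣ κ * q + a then (1 : ℝ) else 0) else 0) := by
      intro q _
      rw [sum_filter, mul_sum]
      apply sum_congr rfl
      intro n _
      by_cases h : n ≡ a [MOD q]
      · rw [if_pos h, if_pos h]; ring
      · rw [if_neg h, if_neg h]; ring
    rw [sum_congr rfl e1, sum_comm]
    apply sum_congr rfl
    intro n _
    rw [mul_sum]
  have hr' : ∑ l ∈ Icc 1 L, ∑ n ∈ (Icc 1 M).filter
        (fun n => n ≡ a [MOD l] ∧ r ∣ κ * (n - a) + a * l),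
        ArithmeticFunction.vonMangoldt n * (w ((n : ℝ) / x) * w (((n : ℝ) - a) / ((l : ℝ) * Q))) =
      ∑ n ∈ Icc 1 M, ArithmeticFunction.vonMangoldt n * w ((n : ℝ) / x) *
        ∑ l ∈ Icc 1 L, (if n ≡ a [MOD l] ∧ r ∣ κ * (n - a) + a * l then
          w (((n : ℝ) - a) / ((l : ℝ) * Q)) else 0) := by
    have e1 : ∀ l ∈ Icc 1 L, ∑ n ∈ (Icc 1 M).filter
        (fun n => n ≡ a [MOD l] ∧ r ∣ κ * (n - a) + a * l),
        ArithmeticFunction.vonMangoldt n * (w ((n : ℝ) / x) * w (((n : ℝ) - a) / ((l : ℝ) * Q))) =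
        ∑ n ∈ Icc 1 M, ArithmeticFunction.vonMangoldt n * w ((n : ℝ) / x) *
          (if n ≡ a [MOD l] ∧ r ∣ κ * (n - a) + a * l then
          w (((n : ℝ) - a) / ((l : ℝ) * Q)) else 0) := by
      intro l _
      rw [sum_filter]
      apply sum_congr rfl
      intro n _
      by_cases h : n ≡ a [MOD l] ∧ r ∣ κ * (n - a) + a * l
      · rw [if_pos h, if_pos h]; ring
      · rw [if_neg h, if_neg h]; ring
    rw [sum_congr rfl e1, sum_comm]
    apply sum_congr rfl
    intro n _
    rw [mul_sum]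
  rw [hl, hr']
  apply sum_congr rfl
  intro n hn
  by_cases hs : (n : ℝ) / x ≤ 1 ∨ 2 ≤ (n : ℝ) / x
  · rw [(hout _ hs).1]; simp
  push Not at hs
  have hn1 : x < n := by have := hs.1; rwa [one_lt_div hx0] at this
  have hn2 : (n : ℝ) < 2 * x := by have := hs.2; rwa [div_lt_iff₀ hx0] at this
  have han : a < n := by
    have : (a : ℝ) < n := by linarith
    exact_mod_cast this
  congr 1
  set D := n - a with hD
  have hD0 : 0 < D := by omega
  have hDr : ((n : ℝ) - a) = (D : ℝ) := by
    rw [hD, Nat.cast_sub han.le]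
  rw [hDr]
  have hmod : ∀ q, (n ≡ a [MOD q]) ↔ q ∣ D := fun q =>
    ⟨fun h => (Nat.modEq_iff_dvd' han.le).1 h.symm, fun h => ((Nat.modEq_iff_dvd' han.le).2 h).symm⟩
  have L1 : ∑ q ∈ Ioc Q (2 * Q), (if n ≡ a [MOD q] then
      w ((q : ℝ) / Q) * (if r ∣ κ * q + a then (1 : ℝ) else 0) else 0) =
      ∑ q ∈ D.divisors, w ((q : ℝ) / Q) * (if r ∣ κ * q + a then (1 : ℝ) else 0) := by
    rw [← sum_filter]
    apply sum_subset
    · intro q hq
      rw [mem_filter] at hq
      rw [Nat.mem_divisors]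
      exact ⟨(hmod q).1 hq.2, by omega⟩
    · intro q hq hq'
      rw [Nat.mem_divisors] at hq
      rw [mem_filter, mem_Ioc] at hq'
      have hq2 : ¬ (Q < q ∧ q ≤ 2 * Q) := fun h => hq' ⟨h, (hmod q).2 hq.1⟩
      have : w ((q : ℝ) / Q) = 0 := by
        apply (hout _ _).1
        by_cases h : Q < q
        · right
          rw [le_div_iff₀ hQ0]
          have : 2 * Q < q := by
            by_contra hc
            exact hq2 ⟨h, by omega⟩
          have h3 : ((2 * Q : ℕ) : ℝ) < q := by exact_mod_cast this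
          push_cast at h3
          linarith
        · left
          rw [div_le_one hQ0]
          have : q ≤ Q := by omega
          exact_mod_cast this
      rw [this, zero_mul]
  have L2 : ∑ l ∈ Icc 1 L, (if n ≡ a [MOD l] ∧ r ∣ κ * D + a * l then
      w ((D : ℝ) / ((l : ℝ) * Q)) else 0) =
      ∑ l ∈ D.divisors, w (((D / l : ℕ) : ℝ) / Q) *
        (if r ∣ κ * (D / l) + a then (1 : ℝ) else 0) := by
    have e2 : ∀ l ∈ D.divisors, w (((D / l : ℕ) : ℝ) / Q) *
        (if r ∣ κ * (D / l) + a then (1 : ℝ) else 0) = 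
        if l ≤ L then (if r ∣ κ * (D / l) + a then w ((D : ℝ) / ((l : ℝ) * Q)) else 0) else 0 := by
      intro l hl
      rw [Nat.mem_divisors] at hl
      have hl0 : 0 < l := Nat.pos_of_dvd_of_pos hl.1 hD0
      have hl0' : (0 : ℝ) < l := by exact_mod_cast hl0
      have hdiv : (((D / l : ℕ) : ℝ) / Q) = (D : ℝ) / ((l : ℝ) * Q) := by
        rw [Nat.cast_div hl.1 (by positivity)]
        field_simp
      rw [hdiv]
      by_cases h : l ≤ L
      · rw [if_pos h]
        split_ifs <;> simp
      · rw [if_neg h]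
        have : w ((D : ℝ) / ((l : ℝ) * Q)) = 0 := by
          apply (hout _ _).1
          left
          rw [div_le_one (by positivity)]
          have h1 : (L : ℝ) * Q ≤ (l : ℝ) * Q := by
            apply mul_le_mul_of_nonneg_right _ hQ0.le
            have : L ≤ l := by omega
            exact_mod_cast this
          have h2 : (D : ℝ) ≤ n := by
            have : D ≤ n := by omega
            exact_mod_cast this
          linarith
        rw [this, zero_mul]
    rw [sum_congr rfl e2, ← sum_filter (fun l => l ≤ L), ← sum_filter]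
    have e3 : (Icc 1 L).filter (fun l => n ≡ a [MOD l] ∧ r ∣ κ * D + a * l) =
        ((D.divisors).filter (fun l => l ≤ L)).filter (fun l => r ∣ κ * (D / l) + a) := by
      ext l
      simp only [mem_filter, mem_Icc, Nat.mem_divisors, hmod]
      constructor
      · rintro ⟨⟨h1, h2⟩, h3, h4⟩
        refine ⟨⟨⟨h3, by omega⟩, h2⟩, ?_⟩
        have e : κ * D + a * l = l * (κ * (D / l) + a) := by
          have : D = l * (D / l) := (Nat.mul_div_cancel' h3).symm
          calc κ * D + a * l = κ * (l * (D / l)) + a * l := by rw [← this]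
            _ = _ := by ring
        rw [e] at h4
        rcases (Nat.Prime.dvd_mul hr).1 h4 with h5 | h5
        · have := Nat.le_of_dvd (by omega) h5
          omega
        · exact h5
      · rintro ⟨⟨⟨h3, h3'⟩, h2⟩, h4⟩
        have h1 : 0 < l := Nat.pos_of_dvd_of_pos h3 hD0
        refine ⟨⟨h1, h2⟩, h3, ?_⟩
        have e : κ * D + a * l = l * (κ * (D / l) + a) := by
          have : D = l * (D / l) := (Nat.mul_div_cancel' h3).symm
          calc κ * D + a * l = κ * (l * (D / l)) + a * l := by rw [← this]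
            _ = _ := by ring
        rw [e]
        exact dvd_mul_of_dvd_right h4 _
    rw [e3, sum_filter]
  rw [L1, L2]
  exact (Nat.sum_div_divisors D (fun q => w ((q : ℝ) / Q) *
    (if r ∣ κ * q + a then (1 : ℝ) else 0))).symm

end Pool.Agent.D0H81.FR
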