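import Mathlib
import Pool.Agent.D0H44.FR.Stm

/-! Project FR, package WT: the bump and the weight `om`. -/

open Finset MeasureTheory

namespace Pool.Agent.D0H81.FR

open Pool.Agent.D0H44.FR

lemma hd_max (n : ℕ) (hn : 1 ≤ n) (t : ℝ) :
    HasDerivAt (fun t : ℝ => (max 0 t) ^ (n + 1)) (((n + 1 : ℕ) : ℝ) * (max 0 t) ^ n) t := by
  rcases lt_trichotomy t 0 with h | h | h
  · have h1 : max 0 t = 0 := max_eq_left h.le
    rw [h1]
    have h2 : (0 : ℝ) ^ n = 0 := zero_pow (by omega)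
    rw [h2, mul_zero]
    have h3 : (fun t : ℝ => (max 0 t) ^ (n + 1)) =ᶠ[nhds t] (fun _ => (0 : ℝ)) := by
      filter_upwards [gt_mem_nhds h] with u hu
      rw [max_eq_left (le_of_lt hu)]
      exact zero_pow (by omega)
    exact (hasDerivAt_const t (0 : ℝ)).congr_of_eventuallyEq h3
  · subst h
    have h2 : (max (0 : ℝ) 0) ^ n = 0 := by
      rw [max_self]; exact zero_pow (by omega)
    rw [h2, mul_zero]
    rw [hasDerivAt_iff_isLittleO]
    have h3 : (fun x' : ℝ => (max 0 x') ^ (n + 1) - (max (0 : ℝ) 0) ^ (n + 1) -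
        (x' - 0) • (0 : ℝ)) = fun x' : ℝ => (max 0 x') ^ (n + 1) := by
      funext x'
      rw [max_self, zero_pow (by omega)]
      simp
    rw [h3]
    have h4 : (fun x' : ℝ => (max 0 x') ^ (n + 1)) =O[nhds 0] fun x' : ℝ => x' ^ (n + 1) := by
      apply Asymptotics.IsBigO.of_bound 1
      refine Filter.Eventually.of_forall fun x' => ?_
      rw [one_mul, norm_pow, norm_pow]
      apply pow_le_pow_left₀ (norm_nonneg _)
      rw [Real.norm_eq_abs, Real.norm_eq_abs, abs_of_nonneg (le_max_left _ _)]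
      exact max_le (abs_nonneg _) (le_abs_self _)
    have h5 : (fun x' : ℝ => x' ^ (n + 1)) =o[nhds 0] fun x' : ℝ => x' - 0 := by
      have := (Asymptotics.isLittleO_pow_id (𝕜 := ℝ) (n := n + 1) (by omega))
      simpa using this
    exact h4.trans_isLittleO h5
  · have h1 : max 0 t = t := max_eq_right h.le
    rw [h1]
    have h3 : (fun t : ℝ => (max 0 t) ^ (n + 1)) =ᶠ[nhds t] (fun t => t ^ (n + 1)) := by
      filter_upwards [lt_mem_nhds h] with u hu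
      rw [max_eq_right (le_of_lt hu)]
    have := (hasDerivAt_pow (n + 1) t)
    simp only [Nat.add_sub_cancel] at this
    exact this.congr_of_eventuallyEq h3

lemma hd_g (s : ℝ) : HasDerivAt (fun s : ℝ => 4 * ((2 - s) * (s - 1))) (4 * (3 - 2 * s)) s := by
  have h1 : HasDerivAt (fun s : ℝ => (2 - s)) (-1) s := by
    simpa using (hasDerivAt_id s).const_sub 2
  have h2 : HasDerivAt (fun s : ℝ => (s - 1)) 1 s := by
    simpa using (hasDerivAt_id s).sub_const 1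
  have h3 := (h1.fun_mul h2).const_mul 4
  exact h3.congr_deriv (by ring)

lemma hd_mg (n : ℕ) (hn : 1 ≤ n) (s : ℝ) :
    HasDerivAt (fun s : ℝ => (max 0 (4 * ((2 - s) * (s - 1)))) ^ (n + 1))
      (((n + 1 : ℕ) : ℝ) * (max 0 (4 * ((2 - s) * (s - 1)))) ^ n * (4 * (3 - 2 * s))) s := by
  exact (hd_max n hn (4 * ((2 - s) * (s - 1)))).comp s (hd_g s)

lemma mg0 (s : ℝ) : 0 ≤ max 0 (4 * ((2 - s) * (s - 1))) := le_max_left _ _

lemma mg1 (s : ℝ) : max 0 (4 * ((2 - s) * (s - 1))) ≤ 1 := by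
  apply max_le (by norm_num)
  nlinarith [sq_nonneg (2 * s - 3)]

lemma mg_out (s : ℝ) (h : s ≤ 1 ∨ 2 ≤ s) : max 0 (4 * ((2 - s) * (s - 1))) = 0 := by
  apply max_eq_left
  rcases h with h | h <;> nlinarith

lemma w_der (s : ℝ) : HasDerivAt w (w1 s) s := by
  have h := hd_mg 2 (by norm_num) s
  unfold w1
  exact HasDerivAt.congr_deriv (f := w) h (by push_cast; ring)

lemma w1_der (s : ℝ) : HasDerivAt w1 (w2 s) s := by
  have h := (hd_mg 1 (by norm_num) s).const_mul 12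
  have h2 : HasDerivAt (fun s : ℝ => 3 - 2 * s) (-2) s := by
    simpa using ((hasDerivAt_id s).const_mul 2).const_sub 3
  have h3 := h.fun_mul h2
  unfold w2
  exact HasDerivAt.congr_deriv (f := w1) h3 (by push_cast; ring)

lemma w2_cont : Continuous w2 := by
  unfold w2
  fun_prop

lemma w_out (s : ℝ) (h : s ≤ 1 ∨ 2 ≤ s) : w s = 0 ∧ w1 s = 0 ∧ w2 s = 0 := by
  unfold w w1 w2
  rw [mg_out s h]
  norm_num

lemma w1_abs (s : ℝ) : |w1 s| ≤ 12 := by
  by_cases h : s ≤ 1 ∨ 2 ≤ s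
  · rw [(w_out s h).2.1]; norm_num
  · push Not at h
    unfold w1
    have h0 := mg0 s
    have h1 := mg1 s
    set m := max 0 (4 * ((2 - s) * (s - 1)))
    rw [abs_mul, abs_mul]
    have h2 : |3 - 2 * s| ≤ 1 := by rw [abs_le]; constructor <;> linarith
    have h3 : |m ^ 2| ≤ 1 := by
      rw [abs_of_nonneg (by positivity)]
      exact pow_le_one₀ h0 h1
    have h4 : |(12 : ℝ)| = 12 := by norm_num
    rw [h4]
    nlinarith [abs_nonneg (m ^ 2), abs_nonneg (3 - 2 * s)]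

lemma w2_abs (s : ℝ) : |w2 s| ≤ 120 := by
  by_cases h : s ≤ 1 ∨ 2 ≤ s
  · rw [(w_out s h).2.2]; norm_num
  · push Not at h
    unfold w2
    have h0 := mg0 s
    have h1 := mg1 s
    set m := max 0 (4 * ((2 - s) * (s - 1)))
    have h2 : (3 - 2 * s) ^ 2 ≤ 1 := by nlinarith
    have h2' : 0 ≤ (3 - 2 * s) ^ 2 := by positivity
    have h3 : m ^ 2 ≤ 1 := pow_le_one₀ h0 h1
    have h3' : 0 ≤ m ^ 2 := by positivity
    have h5 : m * (3 - 2 * s) ^ 2 ≤ 1 := by nlinarith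
    have h5' : 0 ≤ m * (3 - 2 * s) ^ 2 := by positivity
    rw [abs_le]
    constructor <;> nlinarith

lemma bd (y X Z A0 A1 A2 B0 B1 B2 : ℝ) (hy : 0 < y) (p1 : 0 < X) (p2 : 0 < Z) (k1 : X ≤ 2 / y)
    (k2 : Z ≤ 4 / y) (a0 : 0 ≤ A0 ∧ A0 ≤ 1) (a1 : |A1| ≤ 12) (a2 : |A2| ≤ 120)
    (b0 : 0 ≤ B0 ∧ B0 ≤ 1) (b1 : |B1| ≤ 12) (b2 : |B2| ≤ 120) :
    |X * (A1 * B0) + Z * (A0 * B1) + y * (X ^ 2 * (A2 * B0)) + y * (2 * (X * Z) * (A1 * B1)) +
      y * (Z ^ 2 * (A0 * B2))| ≤ 5000 / y := by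
  have c1 : |A1 * B0| ≤ 12 := by
    rw [abs_mul, abs_of_nonneg b0.1]
    nlinarith [abs_nonneg A1, b0.1, b0.2]
  have c2 : |A0 * B1| ≤ 12 := by
    rw [abs_mul, abs_of_nonneg a0.1]
    nlinarith [abs_nonneg B1, a0.1, a0.2]
  have c3 : |A2 * B0| ≤ 120 := by
    rw [abs_mul, abs_of_nonneg b0.1]
    nlinarith [abs_nonneg A2, b0.1, b0.2]
  have c4 : |A1 * B1| ≤ 144 := by
    rw [abs_mul]
    nlinarith [abs_nonneg A1, abs_nonneg B1]
  have c5 : |A0 * B2| ≤ 120 := by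
    rw [abs_mul, abs_of_nonneg a0.1]
    nlinarith [abs_nonneg B2, a0.1, a0.2]
  have hXX : X ^ 2 ≤ (2 / y) ^ 2 := pow_le_pow_left₀ p1.le k1 2
  have hZZ : Z ^ 2 ≤ (4 / y) ^ 2 := pow_le_pow_left₀ p2.le k2 2
  have hXZ : X * Z ≤ (2 / y) * (4 / y) := mul_le_mul k1 k2 p2.le (by positivity)
  have d1 : |X * (A1 * B0)| ≤ (2 / y) * 12 := by
    rw [abs_mul, abs_of_pos p1]
    exact mul_le_mul k1 c1 (abs_nonneg _) (by positivity)
  have d2 : |Z * (A0 * B1)| ≤ (4 / y) * 12 := by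
    rw [abs_mul, abs_of_pos p2]
    exact mul_le_mul k2 c2 (abs_nonneg _) (by positivity)
  have d3 : |y * (X ^ 2 * (A2 * B0))| ≤ y * ((2 / y) ^ 2 * 120) := by
    rw [abs_mul, abs_of_pos hy, abs_mul, abs_of_nonneg (by positivity : (0 : ℝ) ≤ X ^ 2)]
    exact mul_le_mul_of_nonneg_left (mul_le_mul hXX c3 (abs_nonneg _) (by positivity)) hy.le
  have d4 : |y * (2 * (X * Z) * (A1 * B1))| ≤ y * (2 * ((2 / y) * (4 / y)) * 144) := by
    rw [abs_mul, abs_of_pos hy, abs_mul, abs_of_nonneg (by positivity : (0 : ℝ) ≤ 2 * (X * Z))]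
    exact mul_le_mul_of_nonneg_left (mul_le_mul (by linarith) c4 (abs_nonneg _) (by positivity))
      hy.le
  have d5 : |y * (Z ^ 2 * (A0 * B2))| ≤ y * ((4 / y) ^ 2 * 120) := by
    rw [abs_mul, abs_of_pos hy, abs_mul, abs_of_nonneg (by positivity : (0 : ℝ) ≤ Z ^ 2)]
    exact mul_le_mul_of_nonneg_left (mul_le_mul hZZ c5 (abs_nonneg _) (by positivity)) hy.le
  have tot : (2 / y) * 12 + (4 / y) * 12 + y * ((2 / y) ^ 2 * 120) +
      y * (2 * ((2 / y) * (4 / y)) * 144) + y * ((4 / y) ^ 2 * 120) = 4776 / y := by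
    field_simp
    ring
  have t1 := abs_add_le (X * (A1 * B0) + Z * (A0 * B1) + y * (X ^ 2 * (A2 * B0)) +
    y * (2 * (X * Z) * (A1 * B1))) (y * (Z ^ 2 * (A0 * B2)))
  have t2 := abs_add_le (X * (A1 * B0) + Z * (A0 * B1) + y * (X ^ 2 * (A2 * B0)))
    (y * (2 * (X * Z) * (A1 * B1)))
  have t3 := abs_add_le (X * (A1 * B0) + Z * (A0 * B1)) (y * (X ^ 2 * (A2 * B0)))
  have t4 := abs_add_le (X * (A1 * B0)) (Z * (A0 * B1))
  have t5 : 4776 / y ≤ 5000 / y := by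
    apply div_le_div_of_nonneg_right _ hy.le
    norm_num
  linarith

theorem t_W : S_W := by
  refine ⟨w_der, w1_der, w2_cont, ?_, w1_abs, w2_abs, w_out, ?_⟩
  · intro s
    unfold w
    exact ⟨by have := mg0 s; positivity, pow_le_one₀ (mg0 s) (mg1 s)⟩
  · intro s h1 h2
    unfold w
    have h3 : (16 / 25 : ℝ) ≤ max 0 (4 * ((2 - s) * (s - 1))) := by
      apply le_trans _ (le_max_right _ _)
      nlinarith
    calc (1 / 4 : ℝ) ≤ (16 / 25) ^ 3 := by norm_num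
      _ ≤ _ := pow_le_pow_left₀ (by norm_num) h3 3

theorem t_OM : S_OM := by
  obtain ⟨hw, hw1, hw2c, hw01, hw1a, hw2a, hout, -⟩ := t_W
  have hwc : Continuous w := continuous_iff_continuousAt.2 fun s => (hw s).continuousAt
  have hw1c : Continuous w1 := continuous_iff_continuousAt.2 fun s => (hw1 s).continuousAt
  intro x Q a l hx hQ hl ha
  have hx0 : (0 : ℝ) < x := by linarith
  have hQ0 : (0 : ℝ) < Q := by exact_mod_cast hQ
  have hl0 : (0 : ℝ) < l := by exact_mod_cast hl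
  have hlQ : (0 : ℝ) < (l : ℝ) * Q := by positivity
  have hs : ∀ y : ℝ, HasDerivAt (fun y : ℝ => y / x) (1 / x) y := fun y => by
    simpa using (hasDerivAt_id y).div_const x
  have ht : ∀ y : ℝ, HasDerivAt (fun y : ℝ => (y - a) / ((l : ℝ) * Q)) (1 / ((l : ℝ) * Q)) y :=
    fun y => by simpa using ((hasDerivAt_id y).sub_const (a : ℝ)).div_const ((l : ℝ) * Q)
  have hA : ∀ y : ℝ, HasDerivAt (fun y : ℝ => w (y / x)) (w1 (y / x) * (1 / x)) y := fun y =>
    HasDerivAt.comp (h₂ := w) y (hw (y / x)) (hs y)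
  have hA1 : ∀ y : ℝ, HasDerivAt (fun y : ℝ => w1 (y / x)) (w2 (y / x) * (1 / x)) y := fun y =>
    HasDerivAt.comp (h₂ := w1) y (hw1 (y / x)) (hs y)
  have hB : ∀ y : ℝ, HasDerivAt (fun y : ℝ => w ((y - a) / ((l : ℝ) * Q)))
      (w1 ((y - a) / ((l : ℝ) * Q)) * (1 / ((l : ℝ) * Q))) y := fun y =>
    HasDerivAt.comp (h₂ := w) y (hw _) (ht y)
  have hB1 : ∀ y : ℝ, HasDerivAt (fun y : ℝ => w1 ((y - a) / ((l : ℝ) * Q)))
      (w2 ((y - a) / ((l : ℝ) * Q)) * (1 / ((l : ℝ) * Q))) y := fun y =>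
    HasDerivAt.comp (h₂ := w1) y (hw1 _) (ht y)
  refine ⟨?_, ?_, ?_, ?_, ?_, ?_⟩
  · intro y
    have h := (hA y).fun_mul (hB y)
    unfold om1
    exact HasDerivAt.congr_deriv (f := om x Q a l) h (by ring)
  · intro y
    have h := (((hA1 y).const_mul (1 / x)).fun_mul (hB y)).fun_add
      (((hA y).fun_mul (hB1 y)).const_mul (1 / ((l : ℝ) * Q)))
    unfold om2
    refine HasDerivAt.congr_deriv (f := om1 x Q a l) h ?_
    have e1 : 1 / x ^ 2 = (1 / x) * (1 / x) := by field_simp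
    have e2 : 2 / (x * ((l : ℝ) * Q)) = 2 * ((1 / x) * (1 / ((l : ℝ) * Q))) := by field_simp
    have e3 : 1 / ((l : ℝ) * Q) ^ 2 = (1 / ((l : ℝ) * Q)) * (1 / ((l : ℝ) * Q)) := by field_simp
    rw [e1, e2, e3]
    ring
  · unfold om2
    fun_prop
  · intro y
    unfold om
    have h1 := hw01 (y / x)
    have h2 := hw01 ((y - a) / ((l : ℝ) * Q))
    exact ⟨mul_nonneg h1.1 h2.1, mul_le_one₀ h1.2 h2.1 h2.2⟩
  · intro y hy
    unfold om
    have : w (y / x) = 0 := by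
      apply (hout _ _).1
      rcases hy with h | h
      · left; rw [div_le_one hx0]; exact h
      · right; rw [le_div_iff₀ hx0]; exact h
    rw [this, zero_mul]
  · intro y hy
    by_cases hs1 : y / x ≤ 1 ∨ 2 ≤ y / x
    · obtain ⟨e1, e2, e3⟩ := hout _ hs1
      unfold om1 om2
      rw [e1, e2, e3]
      simp only [mul_zero, zero_mul, add_zero, abs_zero]
      positivity
    by_cases ht1 : (y - a) / ((l : ℝ) * Q) ≤ 1 ∨ 2 ≤ (y - a) / ((l : ℝ) * Q)
    · obtain ⟨e1, e2, e3⟩ := hout _ ht1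
      unfold om1 om2
      rw [e1, e2, e3]
      simp only [mul_zero, add_zero, abs_zero]
      positivity
    push Not at hs1 ht1
    have hxy : y < 2 * x := by
      have := hs1.2; rwa [div_lt_iff₀ hx0] at this
    have hxy' : x < y := by
      have := hs1.1; rwa [one_lt_div hx0] at this
    have hlq : (y - a) < 2 * ((l : ℝ) * Q) := by
      have := ht1.2; rwa [div_lt_iff₀ hlQ] at this
    have k1 : 1 / x ≤ 2 / y := by
      rw [div_le_div_iff₀ hx0 hy]; linarith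
    have k2 : 1 / ((l : ℝ) * Q) ≤ 4 / y := by
      rw [div_le_div_iff₀ hlQ hy]; nlinarith
    have p1 : 0 < 1 / x := by positivity
    have p2 : 0 < 1 / ((l : ℝ) * Q) := by positivity
    have a0 := hw01 (y / x)
    have a1 := hw1a (y / x)
    have a2 := hw2a (y / x)
    have b0 := hw01 ((y - a) / ((l : ℝ) * Q))
    have b1 := hw1a ((y - a) / ((l : ℝ) * Q))
    have b2 := hw2a ((y - a) / ((l : ℝ) * Q))
    have e : om1 x Q a l y + y * om2 x Q a l y =
        (1 / x) * (w1 (y / x) * w ((y - a) / ((l : ℝ) * Q))) +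
        (1 / ((l : ℝ) * Q)) * (w (y / x) * w1 ((y - a) / ((l : ℝ) * Q))) +
        y * ((1 / x) ^ 2 * (w2 (y / x) * w ((y - a) / ((l : ℝ) * Q)))) +
        y * (2 * ((1 / x) * (1 / ((l : ℝ) * Q))) *
          (w1 (y / x) * w1 ((y - a) / ((l : ℝ) * Q)))) +
        y * ((1 / ((l : ℝ) * Q)) ^ 2 * (w (y / x) * w2 ((y - a) / ((l : ℝ) * Q)))) := by
      unfold om1 om2
      have e1 : 1 / x ^ 2 = (1 / x) ^ 2 := by field_simp
      have e2 : 2 / (x * ((l : ℝ) * Q)) = 2 * ((1 / x) * (1 / ((l : ℝ) * Q))) := by field_simp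
      have e3 : 1 / ((l : ℝ) * Q) ^ 2 = (1 / ((l : ℝ) * Q)) ^ 2 := by field_simp
      rw [e1, e2, e3]
      ring
    rw [e]
    exact bd y _ _ _ _ _ _ _ _ hy p1 p2 k1 k2 a0 a1 a2 b0 b1 b2

end Pool.Agent.D0H81.FR
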